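import Pool.Agent.Helper17.SA.St

set_option autoImplicit false

namespace Pool.Agent.Helper45.SA

open Pool.Agent.Helper17.SA Finset

theorem geo (a n : ℕ) (r : ℝ) (hr : 0 ≤ r) (hr1 : r < 1) :
    ∑ k ∈ Icc 1 n, (if a ≤ k then r ^ (k - a) else 0) ≤ (1 - r)⁻¹ := by
  rw [← Finset.sum_filter]
  calc _ ≤ ∑ k ∈ Ico a (n + 1), r ^ (k - a) := by
        refine Finset.sum_le_sum_of_subset_of_nonneg ?_ (fun k _ _ => by positivity)
        intro k hk
        simp only [Finset.mem_filter, Finset.mem_Icc, Finset.mem_Ico] at hk ⊢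
        omega
    _ = ∑ k ∈ range (n + 1 - a), r ^ k := by
        rw [Finset.sum_Ico_eq_sum_range]
        refine Finset.sum_congr rfl fun k _ => ?_
        rw [Nat.add_sub_cancel_left]
    _ ≤ ∑' k : ℕ, r ^ k := by
        exact (summable_geometric_of_lt_one hr hr1).sum_le_tsum _ (fun k _ => by positivity)
    _ = (1 - r)⁻¹ := tsum_geometric_of_lt_one hr hr1

/-- one term -/
theorem term_le (p m n k : ℕ) (X : ℕ) (b : ℝ) (hn : p * n ≤ m) (hk : k ≤ n)
    (h : (X : ℝ) ≤ b * ((p * n).descFactorial (p * k) : ℕ)) (hb : 0 ≤ b) :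
    ((X * (m - p * k).factorial : ℕ) : ℝ) ≤ b * (m.factorial : ℝ) := by
  have hkm : p * k ≤ m := le_trans (Nat.mul_le_mul_left p hk) hn
  have h1 := Nat.factorial_mul_descFactorial hkm
  have h2 : (p * n).descFactorial (p * k) ≤ m.descFactorial (p * k) :=
    Nat.descFactorial_le (p * k) hn
  rw [← h1]
  push_cast
  have h3 : (((p * n).descFactorial (p * k) : ℕ) : ℝ) ≤ ((m.descFactorial (p * k) : ℕ) : ℝ) := by
    exact_mod_cast h2
  have h4 : (0 : ℝ) ≤ ((m - p * k).factorial : ℝ) := by positivity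
  calc (X : ℝ) * ((m - p * k).factorial : ℝ)
      ≤ (b * ((m.descFactorial (p * k) : ℕ) : ℝ)) * ((m - p * k).factorial : ℝ) := by
        refine mul_le_mul_of_nonneg_right (h.trans ?_) h4
        exact mul_le_mul_of_nonneg_left h3 hb
    _ = _ := by ring

noncomputable def v2 (n k : ℕ) : ℝ :=
  ((n + k - 1).choose k : ℝ) ^ 2 * 2 ^ k * (k.factorial : ℝ) / ((2 * n).descFactorial (2 * k) : ℕ)

theorem v2_nonneg (n k : ℕ) : 0 ≤ v2 n k := by unfold v2; positivity

theorem v2_one (n : ℕ) (hn : 75 ≤ n) : v2 n 1 ≤ 75 / 149 := by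
  unfold v2
  have e : (2 * n).descFactorial (2 * 1) = (2 * n - 1) * (2 * n) := by
    simp [Nat.descFactorial]
  rw [e, show n + 1 - 1 = n from rfl, Nat.choose_one_right]
  have h1 : (((2 * n - 1) * (2 * n) : ℕ) : ℝ) = (2 * (n : ℝ) - 1) * (2 * n) := by
    push_cast [Nat.cast_sub (show 1 ≤ 2 * n by omega)]
    ring
  rw [h1]
  have hn' : (75 : ℝ) ≤ n := by exact_mod_cast hn
  rw [div_le_div_iff₀ (by nlinarith) (by norm_num)]
  simp only [Nat.factorial_one, Nat.cast_one, pow_one, mul_one]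
  nlinarith

theorem v2_two (n : ℕ) (hn : 75 ≤ n) : v2 n 2 ≤ 134 / 1000 := by
  unfold v2
  have e : (2 * n).descFactorial (2 * 2) = (2 * n - 3) * ((2 * n - 2) * ((2 * n - 1) * (2 * n))) := by
    simp [Nat.descFactorial]
  have hn' : (75 : ℝ) ≤ n := by exact_mod_cast hn
  have hc : (((n + 2 - 1).choose 2 : ℕ) : ℝ) = (n + 1) * n / 2 := by
    have := Nat.cast_choose_two ℝ (n + 1)
    rw [show n + 2 - 1 = n + 1 from rfl, this]
    push_cast
    ring
  rw [e, hc]
  have h1 : (((2 * n - 3) * ((2 * n - 2) * ((2 * n - 1) * (2 * n))) : ℕ) : ℝ) =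
      (2 * (n : ℝ) - 3) * ((2 * n - 2) * ((2 * n - 1) * (2 * n))) := by
    push_cast [Nat.cast_sub (show 1 ≤ 2 * n by omega), Nat.cast_sub (show 2 ≤ 2 * n by omega),
      Nat.cast_sub (show 3 ≤ 2 * n by omega)]
    ring
  rw [h1]
  have p1 : (0 : ℝ) < 2 * n - 3 := by linarith
  have p2 : (0 : ℝ) < 2 * n - 2 := by linarith
  have p3 : (0 : ℝ) < 2 * n - 1 := by linarith
  have p4 : (0 : ℝ) < 2 * n := by linarith
  rw [div_le_div_iff₀ (by positivity) (by norm_num)]
  have hf : ((Nat.factorial 2 : ℕ) : ℝ) = 2 := by norm_num [Nat.factorial]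
  rw [hf]
  have key : (0 : ℝ) ≤ 72 * (n : ℝ) ^ 3 - 5216 * n ^ 2 + 1948 * n - 804 := by
    nlinarith [mul_nonneg (sub_nonneg.2 hn') (sq_nonneg (n : ℝ))]
  have hk2 := mul_nonneg p4.le key
  nlinarith [hk2]

theorem v2_rec (n k : ℕ) (hn : 75 ≤ n) (hk : 2 ≤ k) (hkn : 3 * k ≤ 2 * n) :
    v2 n (k + 1) ≤ v2 n k / 3 := by
  obtain ⟨j, rfl⟩ : ∃ j, n = k + j := ⟨n - k, by omega⟩
  have hj : 25 ≤ j := by omega
  have hkj : k ≤ 2 * j := by omega
  unfold v2
  have e1 : ((k + j + (k + 1) - 1).choose (k + 1) : ℝ) * (k + 1) =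
      (2 * k + j) * ((k + j + k - 1).choose k : ℝ) := by
    have h := Nat.add_one_mul_choose_eq (k + j + k - 1) k
    have h0 : k + j + k - 1 + 1 = k + j + (k + 1) - 1 := by omega
    rw [h0] at h
    have h1 : ((k + j + (k + 1) - 1 : ℕ) : ℝ) = 2 * k + j := by
      rw [show k + j + (k + 1) - 1 = 2 * k + j by omega]
      push_cast
      ring
    have h3 : (((k + j + (k + 1) - 1) * (k + j + k - 1).choose k : ℕ) : ℝ) =
        (((k + j + (k + 1) - 1).choose (k + 1) * (k + 1) : ℕ) : ℝ) := by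
      exact_mod_cast h
    rw [Nat.cast_mul, h1] at h3
    push_cast at h3
    linarith
  have e2 : (2 * (k + j)).descFactorial (2 * (k + 1)) =
      (2 * j - 1) * ((2 * j) * (2 * (k + j)).descFactorial (2 * k)) := by
    rw [show 2 * (k + 1) = 2 * k + 1 + 1 by ring, Nat.descFactorial_succ, Nat.descFactorial_succ,
      show 2 * (k + j) - (2 * k + 1) = 2 * j - 1 by omega,
      show 2 * (k + j) - 2 * k = 2 * j by omega]
  have e3 : (((2 * (k + j)).descFactorial (2 * (k + 1)) : ℕ) : ℝ) =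
      (2 * (j : ℝ) - 1) * ((2 * j) * (((2 * (k + j)).descFactorial (2 * k) : ℕ) : ℝ)) := by
    rw [e2]
    push_cast [Nat.cast_sub (show 1 ≤ 2 * j by omega)]
    ring
  have hjR : (25 : ℝ) ≤ j := by exact_mod_cast hj
  have hkR : (2 : ℝ) ≤ k := by exact_mod_cast hk
  have hkjR : (k : ℝ) ≤ 2 * j := by exact_mod_cast hkj
  have hD : (0 : ℝ) < (((2 * (k + j)).descFactorial (2 * k) : ℕ) : ℝ) := by
    have : 0 < (2 * (k + j)).descFactorial (2 * k) := by
      rw [Nat.pos_iff_ne_zero, Ne, Nat.descFactorial_eq_zero_iff_lt]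
      omega
    exact_mod_cast this
  rw [e3]
  set C := ((k + j + k - 1).choose k : ℝ) with hC
  set C' := ((k + j + (k + 1) - 1).choose (k + 1) : ℝ) with hC'
  set D := (((2 * (k + j)).descFactorial (2 * k) : ℕ) : ℝ) with hDD
  have hk1 : (0 : ℝ) < k + 1 := by linarith
  have hC'e : C' = (2 * k + j) * C / (k + 1) := by
    rw [eq_div_iff hk1.ne']
    exact e1
  have h2j : (0 : ℝ) < 2 * (j : ℝ) - 1 := by linarith
  have hj0 : (0 : ℝ) < (j : ℝ) := by linarith
  have hpoly : 3 * (2 * (k : ℝ) + j) ^ 2 ≤ (k + 1) * j * (2 * j - 1) := by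
    have h1 : (k : ℝ) ^ 2 ≤ 2 * k * j := by nlinarith
    have h2 : 37 * (k : ℝ) + j + 1 ≤ 2 * k * j := by
      nlinarith [mul_nonneg (sub_nonneg.2 hjR) (show (0 : ℝ) ≤ 2 * k - 1 by linarith)]
    nlinarith [mul_le_mul_of_nonneg_left h2 hj0.le]
  have hfac : (((k + 1).factorial : ℕ) : ℝ) = (k + 1) * (k.factorial : ℝ) := by
    rw [Nat.factorial_succ]
    push_cast
    ring
  rw [hfac, hC'e]
  have hfp : (0 : ℝ) < (k.factorial : ℝ) := by positivity
  have hnum : ((2 * (k : ℝ) + j) * C / (k + 1)) ^ 2 * 2 ^ (k + 1) * ((k + 1) * (k.factorial : ℝ)) /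
      ((2 * j - 1) * (2 * j * D)) =
      (C ^ 2 * 2 ^ k * (k.factorial : ℝ) / D) * ((2 * k + j) ^ 2 / ((k + 1) * j * (2 * j - 1))) := by
    field_simp
    ring
  rw [hnum, div_eq_mul_inv _ (3 : ℝ)]
  refine mul_le_mul_of_nonneg_left ?_ (by positivity)
  rw [div_le_iff₀ (by positivity)]
  linarith

theorem v2_geo (n k : ℕ) (hn : 75 ≤ n) (hk : 3 * (k + 1) ≤ 2 * n) :
    v2 n (k + 2) ≤ 134 / 1000 * (1 / 3) ^ k := by
  induction k with
  | zero => simpa using v2_two n hn
  | succ k ih =>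
    have h1 := ih (by omega)
    have h2 := v2_rec n (k + 2) hn (by omega) (by omega)
    rw [show k + 1 + 2 = k + 2 + 1 by ring, pow_succ]
    linarith

noncomputable def w2 (k : ℕ) : ℝ := 54 ^ k * (k.factorial : ℝ) / ((2 * k).factorial : ℝ)

theorem w2_rec (k : ℕ) (hk : 27 ≤ k) : w2 (k + 1) ≤ w2 k * (1 / 2) := by
  unfold w2
  have e1 : (((k + 1).factorial : ℕ) : ℝ) = (k + 1) * (k.factorial : ℝ) := by
    rw [Nat.factorial_succ]; push_cast; ring
  have e2 : (((2 * (k + 1)).factorial : ℕ) : ℝ) =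
      (2 * k + 2) * ((2 * k + 1) * ((2 * k).factorial : ℝ)) := by
    rw [show 2 * (k + 1) = 2 * k + 1 + 1 by ring, Nat.factorial_succ, Nat.factorial_succ]
    push_cast; ring
  rw [e1, e2]
  have hkR : (27 : ℝ) ≤ k := by exact_mod_cast hk
  have h1 : (0 : ℝ) < ((2 * k).factorial : ℝ) := by positivity
  have h2 : (0 : ℝ) < (k.factorial : ℝ) := by positivity
  rw [pow_succ]
  have : (54 : ℝ) ^ k * 54 * ((k + 1) * (k.factorial : ℝ)) /
      ((2 * k + 2) * ((2 * k + 1) * ((2 * k).factorial : ℝ))) =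
      (54 ^ k * (k.factorial : ℝ) / ((2 * k).factorial : ℝ)) * (27 / (2 * k + 1)) := by
    field_simp
    ring
  rw [this]
  refine mul_le_mul_of_nonneg_left ?_ (by positivity)
  rw [div_le_iff₀ (by positivity)]
  linarith

theorem w2_base : w2 52 ≤ 1 / 1000 := by
  unfold w2
  have h : 1000 * (54 ^ 52 * Nat.factorial 52) ≤ Nat.factorial (2 * 52) := by decide +kernel
  have h' : (1000 : ℝ) * (54 ^ 52 * (Nat.factorial 52 : ℝ)) ≤ (Nat.factorial (2 * 52) : ℝ) := by
    exact_mod_cast h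
  rw [div_le_iff₀ (by positivity)]
  linarith

theorem w2_geo (k : ℕ) : w2 (k + 52) ≤ 1 / 1000 * (1 / 2) ^ k := by
  induction k with
  | zero => simpa using w2_base
  | succ k ih =>
    have h2 := w2_rec (k + 52) (by omega)
    rw [show k + 1 + 52 = k + 52 + 1 by ring, pow_succ]
    linarith

theorem hAN2 (hTB : StTB) : StAN2 := by
  intro m hm
  obtain ⟨hT1, hT2, -⟩ := hTB
  set n := m / 2 with hn
  have hn75 : 75 ≤ n := by omega
  have hnm : 2 * n ≤ m := by omega
  have hterm : ∀ k ∈ Icc 1 n, (((RT 2 n k) ^ 2 * (m - 2 * k).factorial * 2 ^ k * k.factorial : ℕ) : ℝ)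
      ≤ (75 / 149 * (if k = 1 then 1 else 0) + 134 / 1000 * (if 2 ≤ k then (1 / 3) ^ (k - 2) else 0)
        + 1 / 1000 * (if 52 ≤ k then (1 / 2) ^ (k - 52) else 0)) * (m.factorial : ℝ) := by
    intro k hk
    rw [Finset.mem_Icc] at hk
    obtain ⟨hk1, hkn⟩ := hk
    have hX : (RT 2 n k) ^ 2 * (m - 2 * k).factorial * 2 ^ k * k.factorial =
        ((T n k) ^ 2 * 2 ^ k * k.factorial) * (m - 2 * k).factorial := by
      unfold RT
      simp only [show 2 - 1 = 1 from rfl, one_pow, one_mul]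
      ring
    rw [hX]
    have hD : 0 < (2 * n).descFactorial (2 * k) := by
      rw [Nat.pos_iff_ne_zero, Ne, Nat.descFactorial_eq_zero_iff_lt]
      omega
    have hDR : (0 : ℝ) < (((2 * n).descFactorial (2 * k) : ℕ) : ℝ) := by exact_mod_cast hD
    have hv : (((T n k) ^ 2 * 2 ^ k * k.factorial : ℕ) : ℝ) ≤
        v2 n k * (((2 * n).descFactorial (2 * k) : ℕ) : ℝ) := by
      unfold v2
      rw [div_mul_cancel₀ _ hDR.ne']
      push_cast
      have : ((T n k : ℕ) : ℝ) ≤ ((n + k - 1).choose k : ℝ) := by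
        exact_mod_cast hT1 n k (by omega)
      gcongr
    by_cases hsmall : 3 * (k - 1) ≤ 2 * n
    · refine (term_le 2 m n k _ (v2 n k) hnm hkn hv (v2_nonneg n k)).trans ?_
      refine mul_le_mul_of_nonneg_right ?_ (by positivity)
      rcases eq_or_lt_of_le hk1 with h | h
      · rw [← h]
        have := v2_one n hn75
        norm_num
        linarith
      · have hk2 : 2 ≤ k := h
        have h3 := v2_geo n (k - 2) hn75 (by omega)
        rw [show k - 2 + 2 = k by omega] at h3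
        have h4 : (0 : ℝ) ≤ 1 / 1000 * (if 52 ≤ k then (1 / 2) ^ (k - 52) else 0) := by
          split_ifs <;> positivity
        rw [if_neg (by omega), if_pos hk2]
        linarith
    · have hk52 : 52 ≤ k := by omega
      have hw : (((T n k) ^ 2 * 2 ^ k * k.factorial : ℕ) : ℝ) ≤
          w2 k * (((2 * n).descFactorial (2 * k) : ℕ) : ℝ) := by
        have h1 : (T n k) ^ 2 ≤ 27 ^ k := by
          calc (T n k) ^ 2 ≤ (3 ^ n) ^ 2 := Nat.pow_le_pow_left (hT2 n k) 2
            _ = 3 ^ (2 * n) := by rw [← pow_mul, mul_comm]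
            _ ≤ 3 ^ (3 * k) := Nat.pow_le_pow_right (by norm_num) (by omega)
            _ = 27 ^ k := by rw [pow_mul]; norm_num
        have h2 : (2 * k).factorial ≤ (2 * n).descFactorial (2 * k) := by
          calc (2 * k).factorial = (2 * k).descFactorial (2 * k) := (Nat.descFactorial_self _).symm
            _ ≤ _ := Nat.descFactorial_le (2 * k) (by omega)
        have h3 : (((2 * k).factorial : ℕ) : ℝ) ≤ (((2 * n).descFactorial (2 * k) : ℕ) : ℝ) := by
          exact_mod_cast h2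
        have h4 : (0 : ℝ) < ((2 * k).factorial : ℝ) := by positivity
        have h5 : w2 k * ((2 * k).factorial : ℝ) = 54 ^ k * (k.factorial : ℝ) := by
          unfold w2
          rw [div_mul_cancel₀ _ h4.ne']
        have h6 : 0 ≤ w2 k := by unfold w2; positivity
        calc (((T n k) ^ 2 * 2 ^ k * k.factorial : ℕ) : ℝ)
            ≤ ((27 ^ k * 2 ^ k * k.factorial : ℕ) : ℝ) := by
              exact_mod_cast Nat.mul_le_mul_right _ (Nat.mul_le_mul_right _ h1)
          _ = w2 k * ((2 * k).factorial : ℝ) := by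
              rw [h5, show (54 : ℝ) = 27 * 2 by norm_num, mul_pow]
              push_cast
              ring
          _ ≤ _ := mul_le_mul_of_nonneg_left h3 h6
      refine (term_le 2 m n k _ (w2 k) hnm hkn hw (by unfold w2; positivity)).trans ?_
      refine mul_le_mul_of_nonneg_right ?_ (by positivity)
      have h3 := w2_geo (k - 52)
      rw [show k - 52 + 52 = k by omega] at h3
      have h4 : (0 : ℝ) ≤ 134 / 1000 * (if 2 ≤ k then (1 / 3) ^ (k - 2) else 0) := by
        split_ifs <;> positivity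
      rw [if_neg (by omega), if_pos hk52]
      linarith
  have hsum : ((W (RT 2) 2 m : ℕ) : ℝ) ≤ (75 / 149 + 134 / 1000 * (3 / 2) + 1 / 1000 * 2) *
      (m.factorial : ℝ) := by
    unfold W
    rw [← hn]
    rw [Nat.cast_sum]
    refine (Finset.sum_le_sum hterm).trans ?_
    rw [← Finset.sum_mul]
    refine mul_le_mul_of_nonneg_right ?_ (by positivity)
    rw [Finset.sum_add_distrib, Finset.sum_add_distrib, ← Finset.mul_sum, ← Finset.mul_sum,
      ← Finset.mul_sum]
    have g1 : ∑ k ∈ Icc 1 n, (if k = 1 then (1 : ℝ) else 0) ≤ 1 := by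
      rw [Finset.sum_ite_eq']
      split_ifs <;> norm_num
    have g2 := geo 2 n (1 / 3) (by norm_num) (by norm_num)
    have g3 := geo 52 n (1 / 2) (by norm_num) (by norm_num)
    rw [show (1 - 1 / 3 : ℝ)⁻¹ = 3 / 2 by norm_num] at g2
    rw [show (1 - 1 / 2 : ℝ)⁻¹ = 2 by norm_num] at g3
    linarith
  have hf : (0 : ℝ) < (m.factorial : ℝ) := by positivity
  have hfin : ((4 * W (RT 2) 2 m : ℕ) : ℝ) ≤ ((3 * m.factorial : ℕ) : ℝ) := by
    push_cast
    nlinarith
  exact_mod_cast hfin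

end Pool.Agent.Helper45.SA
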