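import Pool.Agent.Helper45.SA.M_AN2

set_option autoImplicit false

namespace Pool.Agent.Helper45.SA

open Pool.Agent.Helper17.SA Finset

noncomputable def v3 (n k : ℕ) : ℝ :=
  4 ^ k * ((n + k - 1).choose k : ℝ) ^ 2 * 3 ^ k * (k.factorial : ℝ) /
    ((3 * n).descFactorial (3 * k) : ℕ)

theorem v3_nonneg (n k : ℕ) : 0 ≤ v3 n k := by unfold v3; positivity

theorem v3_one (n : ℕ) (hn : 50 ≤ n) : v3 n 1 ≤ 1 / 100 := by
  unfold v3
  have e : (3 * n).descFactorial (3 * 1) = (3 * n - 2) * ((3 * n - 1) * (3 * n)) := by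
    simp [Nat.descFactorial]
  rw [e, show n + 1 - 1 = n from rfl, Nat.choose_one_right]
  have h1 : (((3 * n - 2) * ((3 * n - 1) * (3 * n)) : ℕ) : ℝ) =
      (3 * (n : ℝ) - 2) * ((3 * n - 1) * (3 * n)) := by
    push_cast [Nat.cast_sub (show 1 ≤ 3 * n by omega), Nat.cast_sub (show 2 ≤ 3 * n by omega)]
    ring
  rw [h1]
  have hn' : (50 : ℝ) ≤ n := by exact_mod_cast hn
  have p1 : (0 : ℝ) < 3 * n - 2 := by linarith
  have p2 : (0 : ℝ) < 3 * n - 1 := by linarith
  have p3 : (0 : ℝ) < 3 * n := by linarith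
  rw [div_le_div_iff₀ (by positivity) (by norm_num)]
  simp only [Nat.factorial_one, Nat.cast_one, pow_one, mul_one]
  have key : 0 ≤ 9 * (n : ℝ) ^ 2 - 409 * n + 2 := by nlinarith
  have := mul_nonneg p3.le key
  nlinarith [this]

theorem v3_rec (n k : ℕ) (hn : 50 ≤ n) (hk : 1 ≤ k) (hkn : 3 * k ≤ 2 * n) :
    v3 n (k + 1) ≤ v3 n k / 2 := by
  obtain ⟨j, rfl⟩ : ∃ j, n = k + j := ⟨n - k, by omega⟩
  have hj : 17 ≤ j := by omega
  have hkj : k ≤ 2 * j := by omega
  unfold v3
  have e1 : ((k + j + (k + 1) - 1).choose (k + 1) : ℝ) * (k + 1) =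
      (2 * k + j) * ((k + j + k - 1).choose k : ℝ) := by
    have h := Nat.add_one_mul_choose_eq (k + j + k - 1) k
    have h0 : k + j + k - 1 + 1 = k + j + (k + 1) - 1 := by omega
    rw [h0] at h
    have h1 : ((k + j + (k + 1) - 1 : ℕ) : ℝ) = 2 * k + j := by
      rw [show k + j + (k + 1) - 1 = 2 * k + j by omega]
      push_cast
      ring
    have h3 : (((k + j + (k + 1) - 1) * (k + j + k - 1).choose k : ℕ) : ℝ) =
        (((k + j + (k + 1) - 1).choose (k + 1) * (k + 1) : ℕ) : ℝ) := by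
      exact_mod_cast h
    rw [Nat.cast_mul, h1] at h3
    push_cast at h3
    linarith
  have e2 : (3 * (k + j)).descFactorial (3 * (k + 1)) =
      (3 * j - 2) * ((3 * j - 1) * ((3 * j) * (3 * (k + j)).descFactorial (3 * k))) := by
    rw [show 3 * (k + 1) = 3 * k + 1 + 1 + 1 by ring, Nat.descFactorial_succ,
      Nat.descFactorial_succ, Nat.descFactorial_succ,
      show 3 * (k + j) - (3 * k + 1 + 1) = 3 * j - 2 by omega,
      show 3 * (k + j) - (3 * k + 1) = 3 * j - 1 by omega,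
      show 3 * (k + j) - 3 * k = 3 * j by omega]
  have e3 : (((3 * (k + j)).descFactorial (3 * (k + 1)) : ℕ) : ℝ) =
      (3 * (j : ℝ) - 2) * ((3 * (j : ℝ) - 1) *
        ((3 * j) * (((3 * (k + j)).descFactorial (3 * k) : ℕ) : ℝ))) := by
    rw [e2]
    push_cast [Nat.cast_sub (show 1 ≤ 3 * j by omega), Nat.cast_sub (show 2 ≤ 3 * j by omega)]
    ring
  have hjR : (17 : ℝ) ≤ j := by exact_mod_cast hj
  have hkR : (1 : ℝ) ≤ k := by exact_mod_cast hk
  have hkjR : (k : ℝ) ≤ 2 * j := by exact_mod_cast hkj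
  have hD : (0 : ℝ) < (((3 * (k + j)).descFactorial (3 * k) : ℕ) : ℝ) := by
    have : 0 < (3 * (k + j)).descFactorial (3 * k) := by
      rw [Nat.pos_iff_ne_zero, Ne, Nat.descFactorial_eq_zero_iff_lt]
      omega
    exact_mod_cast this
  rw [e3]
  set C := ((k + j + k - 1).choose k : ℝ) with hC
  set C' := ((k + j + (k + 1) - 1).choose (k + 1) : ℝ) with hC'
  set D := (((3 * (k + j)).descFactorial (3 * k) : ℕ) : ℝ) with hDD
  have hk1 : (0 : ℝ) < k + 1 := by linarith
  have hC'e : C' = (2 * k + j) * C / (k + 1) := by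
    rw [eq_div_iff hk1.ne']
    exact e1
  have h2j : (0 : ℝ) < 3 * (j : ℝ) - 1 := by linarith
  have h3j : (0 : ℝ) < 3 * (j : ℝ) - 2 := by linarith
  have hj0 : (0 : ℝ) < (j : ℝ) := by linarith
  have hpoly : 8 * (2 * (k : ℝ) + j) ^ 2 ≤ (k + 1) * j * (3 * j - 1) * (3 * j - 2) := by
    have h1 : (2 * (k : ℝ) + j) ^ 2 ≤ 25 * j ^ 2 := by nlinarith
    have h2 : 100 * (j : ℝ) ≤ (3 * j - 1) * (3 * j - 2) := by nlinarith
    have h3 : 2 * j * (100 * (j : ℝ)) ≤ ((k + 1) * j) * ((3 * j - 1) * (3 * j - 2)) := by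
      refine mul_le_mul ?_ h2 (by positivity) (by positivity)
      nlinarith
    nlinarith
  have hfac : (((k + 1).factorial : ℕ) : ℝ) = (k + 1) * (k.factorial : ℝ) := by
    rw [Nat.factorial_succ]
    push_cast
    ring
  rw [hfac, hC'e]
  have hfp : (0 : ℝ) < (k.factorial : ℝ) := by positivity
  have hnum : 4 ^ (k + 1) * ((2 * (k : ℝ) + j) * C / (k + 1)) ^ 2 * 3 ^ (k + 1) *
      ((k + 1) * (k.factorial : ℝ)) / ((3 * j - 2) * ((3 * j - 1) * (3 * j * D))) =
      (4 ^ k * C ^ 2 * 3 ^ k * (k.factorial : ℝ) / D) *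
        (4 * (2 * k + j) ^ 2 / ((k + 1) * j * (3 * j - 1) * (3 * j - 2))) := by
    field_simp
    ring
  rw [hnum, div_eq_mul_inv _ (2 : ℝ)]
  refine mul_le_mul_of_nonneg_left ?_ (by positivity)
  rw [div_le_iff₀ (by positivity)]
  linarith

theorem v3_geo (n k : ℕ) (hn : 50 ≤ n) (hk : 3 * k ≤ 2 * n) :
    v3 n (k + 1) ≤ 1 / 100 * (1 / 2) ^ k := by
  induction k with
  | zero => simpa using v3_one n hn
  | succ k ih =>
    have h1 := ih (by omega)
    have h2 := v3_rec n (k + 1) hn (by omega) (by omega)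
    rw [pow_succ]
    linarith

noncomputable def w3 (k : ℕ) : ℝ := 324 ^ k * (k.factorial : ℝ) / ((3 * k).factorial : ℝ)

theorem w3_rec (k : ℕ) (hk : 5 ≤ k) : w3 (k + 1) ≤ w3 k * (1 / 2) := by
  unfold w3
  have e1 : (((k + 1).factorial : ℕ) : ℝ) = (k + 1) * (k.factorial : ℝ) := by
    rw [Nat.factorial_succ]; push_cast; ring
  have e2 : (((3 * (k + 1)).factorial : ℕ) : ℝ) =
      (3 * k + 3) * ((3 * k + 2) * ((3 * k + 1) * ((3 * k).factorial : ℝ))) := by
    rw [show 3 * (k + 1) = 3 * k + 1 + 1 + 1 by ring, Nat.factorial_succ, Nat.factorial_succ,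
      Nat.factorial_succ]
    push_cast; ring
  rw [e1, e2]
  have hkR : (5 : ℝ) ≤ k := by exact_mod_cast hk
  have h1 : (0 : ℝ) < ((3 * k).factorial : ℝ) := by positivity
  have h2 : (0 : ℝ) < (k.factorial : ℝ) := by positivity
  rw [pow_succ]
  have : (324 : ℝ) ^ k * 324 * ((k + 1) * (k.factorial : ℝ)) /
      ((3 * k + 3) * ((3 * k + 2) * ((3 * k + 1) * ((3 * k).factorial : ℝ)))) =
      (324 ^ k * (k.factorial : ℝ) / ((3 * k).factorial : ℝ)) *
        (108 / ((3 * k + 2) * (3 * k + 1))) := by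
    field_simp
    ring
  rw [this]
  refine mul_le_mul_of_nonneg_left ?_ (by positivity)
  rw [div_le_iff₀ (by positivity)]
  nlinarith

theorem w3_base : w3 35 ≤ 1 / 100 := by
  unfold w3
  have h : 100 * (324 ^ 35 * Nat.factorial 35) ≤ Nat.factorial (3 * 35) := by decide +kernel
  have h' : (100 : ℝ) * (324 ^ 35 * (Nat.factorial 35 : ℝ)) ≤ (Nat.factorial (3 * 35) : ℝ) := by
    exact_mod_cast h
  rw [div_le_iff₀ (by positivity)]
  linarith

theorem w3_geo (k : ℕ) : w3 (k + 35) ≤ 1 / 100 * (1 / 2) ^ k := by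
  induction k with
  | zero => simpa using w3_base
  | succ k ih =>
    have h2 := w3_rec (k + 35) (by omega)
    rw [show k + 1 + 35 = k + 35 + 1 by ring, pow_succ]
    linarith

theorem hAN3 (hTB : StTB) : StAN3 := by
  intro m hm
  obtain ⟨hT1, hT2, -⟩ := hTB
  set n := m / 3 with hn
  have hn50 : 50 ≤ n := by omega
  have hnm : 3 * n ≤ m := by omega
  have hterm : ∀ k ∈ Icc 1 n, (((RT 3 n k) ^ 2 * (m - 3 * k).factorial * 3 ^ k * k.factorial : ℕ) : ℝ)
      ≤ (1 / 100 * (if 1 ≤ k then (1 / 2) ^ (k - 1) else 0)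
        + 1 / 100 * (if 35 ≤ k then (1 / 2) ^ (k - 35) else 0)) * (m.factorial : ℝ) := by
    intro k hk
    rw [Finset.mem_Icc] at hk
    obtain ⟨hk1, hkn⟩ := hk
    have hX : (RT 3 n k) ^ 2 * (m - 3 * k).factorial * 3 ^ k * k.factorial =
        (4 ^ k * (T n k) ^ 2 * 3 ^ k * k.factorial) * (m - 3 * k).factorial := by
      unfold RT
      rw [show 3 - 1 = 2 from rfl, mul_pow, ← pow_mul, mul_comm k 2, pow_mul,
        show 2 ^ 2 = 4 by norm_num]
      ring
    rw [hX]
    have hD : 0 < (3 * n).descFactorial (3 * k) := by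
      rw [Nat.pos_iff_ne_zero, Ne, Nat.descFactorial_eq_zero_iff_lt]
      omega
    have hDR : (0 : ℝ) < (((3 * n).descFactorial (3 * k) : ℕ) : ℝ) := by exact_mod_cast hD
    have hv : ((4 ^ k * (T n k) ^ 2 * 3 ^ k * k.factorial : ℕ) : ℝ) ≤
        v3 n k * (((3 * n).descFactorial (3 * k) : ℕ) : ℝ) := by
      unfold v3
      rw [div_mul_cancel₀ _ hDR.ne']
      push_cast
      have : ((T n k : ℕ) : ℝ) ≤ ((n + k - 1).choose k : ℝ) := by
        exact_mod_cast hT1 n k (by omega)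
      gcongr
    by_cases hsmall : 3 * (k - 1) ≤ 2 * n
    · refine (term_le 3 m n k _ (v3 n k) hnm hkn hv (v3_nonneg n k)).trans ?_
      refine mul_le_mul_of_nonneg_right ?_ (by positivity)
      have h3 := v3_geo n (k - 1) hn50 hsmall
      rw [show k - 1 + 1 = k by omega] at h3
      have h4 : (0 : ℝ) ≤ 1 / 100 * (if 35 ≤ k then (1 / 2) ^ (k - 35) else 0) := by
        split_ifs <;> positivity
      rw [if_pos hk1]
      linarith
    · have hk35 : 35 ≤ k := by omega
      have hw : ((4 ^ k * (T n k) ^ 2 * 3 ^ k * k.factorial : ℕ) : ℝ) ≤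
          w3 k * (((3 * n).descFactorial (3 * k) : ℕ) : ℝ) := by
        have h1 : (T n k) ^ 2 ≤ 27 ^ k := by
          calc (T n k) ^ 2 ≤ (3 ^ n) ^ 2 := Nat.pow_le_pow_left (hT2 n k) 2
            _ = 3 ^ (2 * n) := by rw [← pow_mul, mul_comm]
            _ ≤ 3 ^ (3 * k) := Nat.pow_le_pow_right (by norm_num) (by omega)
            _ = 27 ^ k := by rw [pow_mul]; norm_num
        have h2 : (3 * k).factorial ≤ (3 * n).descFactorial (3 * k) := by
          calc (3 * k).factorial = (3 * k).descFactorial (3 * k) := (Nat.descFactorial_self _).symm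
            _ ≤ _ := Nat.descFactorial_le (3 * k) (by omega)
        have h3 : (((3 * k).factorial : ℕ) : ℝ) ≤ (((3 * n).descFactorial (3 * k) : ℕ) : ℝ) := by
          exact_mod_cast h2
        have h4 : (0 : ℝ) < ((3 * k).factorial : ℝ) := by positivity
        have h5 : w3 k * ((3 * k).factorial : ℝ) = 324 ^ k * (k.factorial : ℝ) := by
          unfold w3
          rw [div_mul_cancel₀ _ h4.ne']
        have h6 : 0 ≤ w3 k := by unfold w3; positivity
        calc ((4 ^ k * (T n k) ^ 2 * 3 ^ k * k.factorial : ℕ) : ℝ)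
            ≤ ((4 ^ k * 27 ^ k * 3 ^ k * k.factorial : ℕ) : ℝ) := by
              exact_mod_cast Nat.mul_le_mul_right _ (Nat.mul_le_mul_right _
                (Nat.mul_le_mul_left _ h1))
          _ = w3 k * ((3 * k).factorial : ℝ) := by
              rw [h5, show (324 : ℝ) = 4 * 27 * 3 by norm_num, mul_pow, mul_pow]
              push_cast
              ring
          _ ≤ _ := mul_le_mul_of_nonneg_left h3 h6
      refine (term_le 3 m n k _ (w3 k) hnm hkn hw (by unfold w3; positivity)).trans ?_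
      refine mul_le_mul_of_nonneg_right ?_ (by positivity)
      have h3 := w3_geo (k - 35)
      rw [show k - 35 + 35 = k by omega] at h3
      have h4 : (0 : ℝ) ≤ 1 / 100 * (if 1 ≤ k then (1 / 2) ^ (k - 1) else 0) := by
        split_ifs <;> positivity
      rw [if_pos hk35]
      linarith
  have hsum : ((W (RT 3) 3 m : ℕ) : ℝ) ≤ (1 / 100 * 2 + 1 / 100 * 2) *
      (m.factorial : ℝ) := by
    unfold W
    rw [← hn]
    rw [Nat.cast_sum]
    refine (Finset.sum_le_sum hterm).trans ?_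
    rw [← Finset.sum_mul]
    refine mul_le_mul_of_nonneg_right ?_ (by positivity)
    rw [Finset.sum_add_distrib, ← Finset.mul_sum, ← Finset.mul_sum]
    have g2 := geo 1 n (1 / 2) (by norm_num) (by norm_num)
    have g3 := geo 35 n (1 / 2) (by norm_num) (by norm_num)
    rw [show (1 - 1 / 2 : ℝ)⁻¹ = 2 by norm_num] at g2 g3
    linarith
  have hf : (0 : ℝ) < (m.factorial : ℝ) := by positivity
  have hfin : ((10 * W (RT 3) 3 m : ℕ) : ℝ) ≤ ((m.factorial : ℕ) : ℝ) := by
    push_cast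
    nlinarith
  exact_mod_cast hfin

end Pool.Agent.Helper45.SA
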